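import Pool.Agent.H500R3.Pol.Fin

/-!
Polluted bootstrap percolation on `ℤ^d` with threshold `r = d ≥ 2`: the final density tends to `0`
whenever `q / p ^ d` tends to infinity.
-/

set_option autoImplicit false

namespace Pool.Agent.Results.MP_faaa3e_pr.DenseClosedSites
open MeasureTheory ProbabilityTheory Filter Topology
open scoped ENNReal

/-- The law of one site: `0` (occupied) with probability `p`, `1` (closed) with probability `q`,
`2` (empty) with probability `1 - p - q`. -/
noncomputable def siteLaw (p q : ℝ) : Measure (Fin 3) :=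
  ENNReal.ofReal p • Measure.dirac 0 + ENNReal.ofReal q • Measure.dirac 1 +
    ENNReal.ofReal (1 - p - q) • Measure.dirac 2

/-- The occupied sites at time `t`: at every step, every empty site with at least `r` occupied
neighbours becomes occupied. -/
def occupied (d r : ℕ) (ω : (Fin d → ℤ) → Fin 3) : ℕ → Set (Fin d → ℤ)
  | 0 => {x | ω x = 0}
  | t + 1 => occupied d r ω t ∪
      {x | ω x = 2 ∧ r ≤ ({y | y ∈ occupied d r ω t ∧ ∑ i, |y i - x i| = 1}).ncard}

/-- The probability that the origin is eventually occupied. -/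
noncomputable def φ (d r : ℕ) (p q : ℝ) : ℝ≥0∞ :=
  Measure.infinitePi (fun _ : Fin d → ℤ => siteLaw p q) {ω | ∃ t, (0 : Fin d → ℤ) ∈ occupied d r ω t}

/-- `φ → l` at `α`. -/
def ConvAt (d r : ℕ) (α : ℝ) (l : ℝ≥0∞) : Prop :=
  ∀ p q : ℕ → ℝ, (∀ n, 0 < p n) → (∀ n, 0 < q n) → (∀ n, p n + q n ≤ 1) →
    Tendsto p atTop (𝓝 0) → Tendsto q atTop (𝓝 0) →
    Tendsto (fun n => Real.log (q n) / Real.log (p n)) atTop (𝓝 α) →
    Tendsto (fun n => φ d r (p n) (q n)) atTop (𝓝 l)

theorem siteLaw_prob {p q : ℝ} (hp : 0 ≤ p) (hq : 0 ≤ q) (hpq : p + q ≤ 1) :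
    IsProbabilityMeasure (siteLaw p q) := by
  constructor
  unfold siteLaw
  simp only [Measure.coe_add, Measure.coe_smul, Pi.add_apply, Pi.smul_apply, measure_univ,
    smul_eq_mul, mul_one]
  rw [← ENNReal.ofReal_add hp hq, ← ENNReal.ofReal_add (by linarith) (by linarith)]
  have : p + q + (1 - p - q) = 1 := by ring
  rw [this, ENNReal.ofReal_one]

theorem siteLaw_zero {p q : ℝ} (hp : 0 ≤ p) : (siteLaw p q).real {0} = p := by
  rw [measureReal_def]
  unfold siteLaw
  simp [ENNReal.toReal_ofReal hp]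

theorem siteLaw_one {p q : ℝ} (hq : 0 ≤ q) : (siteLaw p q).real {1} = q := by
  rw [measureReal_def]
  unfold siteLaw
  simp [ENNReal.toReal_ofReal hq]

theorem occupied_sub {d : ℕ} {ω : (Fin d → ℤ) → Fin 3} {S : Set (Fin d → ℤ)}
    (hS : Pool.Agent.H500R3.Pol.Clo ω S) (t : ℕ) : occupied d d ω t ⊆ S := by
  induction t with
  | zero => exact fun x hx => hS.1 x hx
  | succ t ih =>
    rintro x (hx | ⟨h1, h2⟩)
    · exact ih hx
    · apply hS.2 x (by rw [h1]; decide)
      refine le_trans h2 (Set.ncard_le_ncard ?_ ?_)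
      · rintro y ⟨h3, h4⟩
        exact ⟨ih h3, h4⟩
      · apply (Pool.Agent.H500R3.Pol.bx_finite x 1).subset
        rintro y ⟨_, hy⟩ i
        exact Pool.Agent.H500R3.Pol.nb_coord hy i

theorem φ_le {d : ℕ} (p q : ℝ) :
    φ d d p q ≤ Pool.Agent.H500R3.Prod.Pm (siteLaw p q) (Pool.Agent.H500R3.Pol.Hit d) := by
  apply measure_mono
  rintro ω ⟨t, ht⟩ S hS
  exact occupied_sub hS t ht

theorem main {d : ℕ} (hd : 2 ≤ d) (p q : ℕ → ℝ) (hp : ∀ n, 0 < p n) (hq : ∀ n, 0 ≤ q n)
    (hpq : ∀ n, p n + q n ≤ 1) (hp0 : Tendsto p atTop (𝓝 0))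
    (h : Tendsto (fun n => q n / p n ^ d) atTop atTop) :
    Tendsto (fun n => φ d d (p n) (q n)) atTop (𝓝 0) := by
  have : ∀ n, IsProbabilityMeasure (siteLaw (p n) (q n)) :=
    fun n => siteLaw_prob (hp n).le (hq n) (hpq n)
  have e0 : ∀ n, (siteLaw (p n) (q n)).real {0} = p n := fun n => siteLaw_zero (hp n).le
  have e1 : ∀ n, (siteLaw (p n) (q n)).real {1} = q n := fun n => siteLaw_one (hq n)
  have hlim := Pool.Agent.H500R3.Pol.limit hd (fun n => siteLaw (p n) (q n))
    (by intro n; rw [e0]; exact hp n) (by simp_rw [e0]; exact hp0) (by simp_rw [e0, e1]; exact h)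
  exact tendsto_of_tendsto_of_tendsto_of_le_of_le tendsto_const_nhds hlim (fun _ => zero_le)
    (fun n => φ_le (p n) (q n))

/-- For `r = d ≥ 2` the final density tends to `0` when `q / p ^ d → ∞`; hence `φ → 0` at every
`α < d`, and `φ → 1` fails at `α = d`. -/
theorem result (d : ℕ) (hd : 2 ≤ d) :
    (∀ p q : ℕ → ℝ, (∀ n, 0 < p n) → (∀ n, 0 ≤ q n) → (∀ n, p n + q n ≤ 1) →
      Tendsto p atTop (𝓝 0) → Tendsto (fun n => q n / p n ^ d) atTop atTop →
      Tendsto (fun n => φ d d (p n) (q n)) atTop (𝓝 0)) ∧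
    (∀ α : ℝ, α < d → ConvAt d d α 0) ∧ ¬ ConvAt d d d 1 := by
  refine ⟨fun p q hp hq hpq hp0 h => main hd p q hp hq hpq hp0 h, ?_, ?_⟩
  · intro α hα p q hp hq hpq hp0 _ hlog
    exact main hd p q hp (fun n => (hq n).le) hpq hp0 (Pool.Agent.H500R3.Pol.ratio hp hq hp0 hα hlog)
  · intro hcon
    have hd2 : (2 : ℝ) ≤ d := by exact_mod_cast hd
    set p : ℕ → ℝ := fun n => Real.exp (-((n : ℝ) + 1)) with hpdef
    set q : ℕ → ℝ := fun n => ((n : ℝ) + 1) * p n ^ d with hqdef
    have hp : ∀ n, 0 < p n := fun n => Real.exp_pos _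
    have hq : ∀ n, 0 < q n := fun n => mul_pos (by positivity) (pow_pos (hp n) d)
    have hpn : ∀ n, p n * ((n : ℝ) + 2) ≤ 1 := by
      intro n
      have h1 := Real.add_one_le_exp ((n : ℝ) + 1)
      have h2 : p n * Real.exp ((n : ℝ) + 1) = 1 := by
        rw [hpdef]
        simp only
        rw [← Real.exp_add]
        simp
      nlinarith [hp n]
    have hp1 : ∀ n, p n ≤ 1 := by
      intro n
      have := hpn n
      have h0 := hp n
      have : (0 : ℝ) ≤ n := Nat.cast_nonneg n
      nlinarith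
    have hqle : ∀ n, q n ≤ p n := by
      intro n
      have h1 : p n ^ d ≤ p n ^ 2 := pow_le_pow_of_le_one (hp n).le (hp1 n) hd
      have h2 := hpn n
      have h0 := hp n
      have hn : (0 : ℝ) ≤ n := Nat.cast_nonneg n
      calc q n = ((n : ℝ) + 1) * p n ^ d := rfl
        _ ≤ ((n : ℝ) + 1) * p n ^ 2 := mul_le_mul_of_nonneg_left h1 (by positivity)
        _ ≤ p n := by nlinarith
    have hpq : ∀ n, p n + q n ≤ 1 := by
      intro n
      have h1 := hqle n
      have h2 := hpn n
      have hn : (0 : ℝ) ≤ n := Nat.cast_nonneg n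
      have h0 := hp n
      nlinarith
    have hnat : Tendsto (fun n : ℕ => (n : ℝ) + 1) atTop atTop :=
      tendsto_atTop_add_const_right _ _ tendsto_natCast_atTop_atTop
    have hp0 : Tendsto p atTop (𝓝 0) :=
      Real.tendsto_exp_atBot.comp (tendsto_neg_atTop_atBot.comp hnat)
    have hq0 : Tendsto q atTop (𝓝 0) :=
      tendsto_of_tendsto_of_tendsto_of_le_of_le tendsto_const_nhds hp0 (fun n => (hq n).le) hqle
    have hlogp : ∀ n, Real.log (p n) = -((n : ℝ) + 1) := fun n => Real.log_exp _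
    have hlog : Tendsto (fun n => Real.log (q n) / Real.log (p n)) atTop (𝓝 (d : ℝ)) := by
      have e : ∀ n, Real.log (q n) / Real.log (p n) = d - Real.log ((n : ℝ) + 1) / ((n : ℝ) + 1) := by
        intro n
        have hn : (0 : ℝ) < (n : ℝ) + 1 := by positivity
        rw [hqdef]
        simp only
        rw [Real.log_mul hn.ne' (pow_pos (hp n) d).ne', Real.log_pow, hlogp n]
        field_simp
        ring
      simp_rw [e]
      have h1 : Tendsto (fun x : ℝ => Real.log x / x) atTop (𝓝 0) := by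
        have := Real.isLittleO_log_id_atTop.tendsto_div_nhds_zero
        exact this
      have h2 := (h1.comp hnat).const_sub (d : ℝ)
      rw [sub_zero] at h2
      exact h2
    have h1 := hcon p q hp hq hpq hp0 hq0 hlog
    have h2 := main hd p q hp (fun n => (hq n).le) hpq hp0 (by
      have e : ∀ n, q n / p n ^ d = (n : ℝ) + 1 := by
        intro n
        rw [hqdef]
        simp only
        rw [mul_div_assoc, div_self (pow_pos (hp n) d).ne', mul_one]
      simp_rw [e]
      exact hnat)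
    exact zero_ne_one (tendsto_nhds_unique h2 h1)

end Pool.Agent.Results.MP_faaa3e_pr.DenseClosedSites
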